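import Pool.Agent.Work.MP_acd137_co.Grp

set_option autoImplicit false

namespace Pool.Agent.Work.MP_acd137_co

theorem norm_ne_zero (p : ℕ) [hp : Fact p.Prime] (h3 : p % 3 = 2) (u : ZMod p × ZMod p)
    (hu : u ≠ 0) : u.1 * u.1 - u.1 * u.2 + u.2 * u.2 ≠ 0 := by
  obtain ⟨x, y⟩ := u
  simp only
  intro h
  by_cases hy : y = 0
  · subst hy
    have hx : x = 0 := by simpa using h
    subst hx
    exact hu rfl
  · set t : ZMod p := x / y with ht
    have hxt : x = t * y := by rw [ht]; field_simp
    have h1 : (t ^ 2 - t + 1) * (y * y) = 0 := by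
      rw [← h, hxt]; ring
    have h2 : t ^ 2 - t + 1 = 0 := by
      rcases mul_eq_zero.mp h1 with h | h
      · exact h
      · exact absurd h (mul_ne_zero hy hy)
    have h4 : (-t) ^ 3 = 1 := by
      have : (-t) ^ 3 - 1 = -(t + 1) * (t ^ 2 - t + 1) := by ring
      rw [h2, mul_zero] at this
      exact sub_eq_zero.mp this
    have ht0 : -t ≠ 0 := by
      intro h0
      rw [h0] at h4
      simp at h4
    have h5 : (-t) ^ (p - 1) = 1 := ZMod.pow_card_sub_one_eq_one ht0
    have h6 : p - 1 = 3 * ((p - 1) / 3) + 1 := by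
      have := hp.out.two_le
      omega
    rw [h6, pow_add, pow_mul, h4, one_pow, one_mul, pow_one] at h5
    have h7 : t = -1 := by rw [← h5, neg_neg]
    rw [h7] at h2
    have h8 : ((3 : ℕ) : ZMod p) = 0 := by
      rw [← h2]; push_cast; ring
    rw [ZMod.natCast_eq_zero_iff] at h8
    have h9 := (Nat.prime_dvd_prime_iff_eq hp.out Nat.prime_three).mp h8
    omega

theorem exists_comb (p : ℕ) [hp : Fact p.Prime] (a b n : ZMod p × ZMod p)
    (hd : a.1 * b.2 - a.2 * b.1 ≠ 0) : ∃ x y : ZMod p, n = x • a + y • b := by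
  refine ⟨(n.1 * b.2 - n.2 * b.1) / (a.1 * b.2 - a.2 * b.1),
    (a.1 * n.2 - a.2 * n.1) / (a.1 * b.2 - a.2 * b.1), ?_⟩
  obtain ⟨a1, a2⟩ := a
  obtain ⟨b1, b2⟩ := b
  obtain ⟨n1, n2⟩ := n
  simp only at hd
  ext
  · simp only [Prod.fst_add, Prod.smul_fst, smul_eq_mul]
    rw [div_mul_eq_mul_div, div_mul_eq_mul_div, ← add_div, eq_div_iff hd]
    ring
  · simp only [Prod.snd_add, Prod.smul_snd, smul_eq_mul]
    rw [div_mul_eq_mul_div, div_mul_eq_mul_div, ← add_div, eq_div_iff hd]
    ring

theorem exists_mul_of_det (p : ℕ) [hp : Fact p.Prime] (a b : ZMod p × ZMod p)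
    (hb : b ≠ 0) (hd : a.1 * b.2 - a.2 * b.1 = 0) : ∃ t : ZMod p, a = t • b := by
  obtain ⟨a1, a2⟩ := a
  obtain ⟨b1, b2⟩ := b
  simp only at hd
  by_cases h1 : b1 = 0
  · subst h1
    have h2 : b2 ≠ 0 := by
      rintro rfl
      exact hb rfl
    refine ⟨a2 / b2, ?_⟩
    have : a1 = 0 := by
      have : a1 * b2 = 0 := by simpa using hd
      rcases mul_eq_zero.mp this with h | h
      · exact h
      · exact absurd h h2
    subst this
    ext
    · simp
    · simp only [Prod.smul_snd, smul_eq_mul]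
      field_simp
  · refine ⟨a1 / b1, ?_⟩
    ext
    · simp only [Prod.smul_fst, smul_eq_mul]
      field_simp
    · simp only [Prod.smul_snd, smul_eq_mul]
      field_simp
      linear_combination -hd

section

variable {p : ℕ} [hp : Fact p.Prime] {V : Type} {Γ : SimpleGraph V} (e : (Γ ≃g Γ) ≃* Gp p)

/-- The automorphism of the graph corresponding to a vector. -/
def T (v : ZMod p × ZMod p) : Γ ≃g Γ := e.symm (SemidirectProduct.inl (Multiplicative.ofAdd v))

theorem T_add (v w : ZMod p × ZMod p) (α : V) : T e (v + w) α = T e v (T e w α) := by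
  have : T e (v + w) = T e v * T e w := by
    unfold T
    rw [ofAdd_add, map_mul, map_mul]
  rw [this]
  rfl

theorem T_zero (α : V) : T e 0 α = α := by
  have : T e (0 : ZMod p × ZMod p) = 1 := by
    unfold T
    rw [ofAdd_zero, map_one, map_one]
  rw [this]
  rfl

theorem T_neg (v : ZMod p × ZMod p) (α : V) : T e (-v) (T e v α) = α := by
  rw [← T_add, neg_add_cancel, T_zero]

theorem T_neg' (v : ZMod p × ZMod p) (α : V) : T e v (T e (-v) α) = α := by
  rw [← T_add, add_neg_cancel, T_zero]

theorem T_comm (v w : ZMod p × ZMod p) (α : V) : T e v (T e w α) = T e w (T e v α) := by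
  rw [← T_add, ← T_add, add_comm]

theorem T_nsmul (v : ZMod p × ZMod p) (α : V) (h : T e v α = α) (n : ℕ) :
    T e (n • v) α = α := by
  induction n with
  | zero => rw [zero_smul, T_zero]
  | succ n ih => rw [succ_nsmul, T_add, h, ih]

theorem T_smul (v : ZMod p × ZMod p) (α : V) (h : T e v α = α) (t : ZMod p) :
    T e (t • v) α = α := by
  have : t • v = t.val • v := by
    rw [← Nat.cast_smul_eq_nsmul (ZMod p), ZMod.natCast_zmod_val]
  rw [this]
  exact T_nsmul e v α h _

theorem T_fix_neg (v : ZMod p × ZMod p) (α : V) (h : T e v α = α) :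
    T e (-v) α = α := by
  have := T_neg e v α
  rwa [h] at this

theorem T_fix_add (v w : ZMod p × ZMod p) (α : V) (h : T e v α = α) (h' : T e w α = α) :
    T e (v + w) α = α := by
  rw [T_add, h', h]

/-- Pigeonhole. -/
theorem exists_fix [Fintype V] (hk : Fintype.card V < p ^ 2) (α : V) :
    ∃ v : ZMod p × ZMod p, v ≠ 0 ∧ T e v α = α := by
  have hc : Fintype.card V < Fintype.card (ZMod p × ZMod p) := by
    rw [Fintype.card_prod, ZMod.card, ← sq]
    exact hk
  obtain ⟨v, w, hvw, h⟩ := Fintype.exists_ne_map_eq_of_card_lt (fun v => T e v α) hc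
  refine ⟨-w + v, ?_, ?_⟩
  · intro h0
    apply hvw
    have : v = w := by
      have := neg_add_eq_zero.mp h0
      exact this.symm
    exact this
  · have h : T e v α = T e w α := h
    rw [T_add, h, T_neg]

/-- The generator of the complement. -/
def cgen (p : ℕ) : Gp p := SemidirectProduct.inr ⟨A p, Subgroup.mem_zpowers _⟩

/-- Its image in the automorphism group. -/
def C : Γ ≃g Γ := e.symm (cgen p)

theorem C_T (v : ZMod p × ZMod p) (α : V) :
    C e (T e v α) = T e (A0 p v) (C e α) := by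
  have h : C e * T e v = T e (A0 p v) * C e := by
    unfold C T
    rw [← map_mul, ← map_mul]
    congr 1
    refine SemidirectProduct.ext ?_ ?_
    · simp [cgen, A_apply]
    · simp [cgen]
  exact congrArg (fun f : Γ ≃g Γ => f α) h

theorem eq_T_of_comm (π : Γ ≃g Γ) (h : ∀ v α, π (T e v α) = T e v (π α)) :
    ∃ m : ZMod p × ZMod p, π = T e m := by
  have h1 : ∀ v, π * T e v = T e v * π := by
    intro v
    ext α
    exact h v α
  set g : Gp p := e π with hg
  have h2 : ∀ v : ZMod p × ZMod p, g * SemidirectProduct.inl (Multiplicative.ofAdd v)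
      = SemidirectProduct.inl (Multiplicative.ofAdd v) * g := by
    intro v
    have := congrArg e (h1 v)
    rw [map_mul, map_mul] at this
    unfold T at this
    rw [MulEquiv.apply_symm_apply] at this
    exact this
  have h3 : (g.right : MulAut (N p)) = 1 := by
    ext1 v
    have := congrArg SemidirectProduct.left (h2 (Multiplicative.toAdd v))
    simp only [SemidirectProduct.mul_left, SemidirectProduct.left_inl, SemidirectProduct.right_inl,
      map_one, MulAut.one_apply, ofAdd_toAdd, Subgroup.coe_subtype] at this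
    rw [mul_comm] at this
    exact mul_right_cancel this
  have h4 : g.right = 1 := Subtype.ext h3
  have h5 : g = SemidirectProduct.inl g.left := by
    refine SemidirectProduct.ext ?_ ?_
    · rw [SemidirectProduct.left_inl]
    · rw [h4, SemidirectProduct.right_inl]
  refine ⟨Multiplicative.toAdd g.left, ?_⟩
  unfold T
  rw [ofAdd_toAdd, ← h5, hg, MulEquiv.symm_apply_apply]

include e in
/-- The main bound: a graph whose automorphism group is `(ℤ/p)² ⋊ C₃` has at least `p²` vertices. -/
theorem main_bound [Fintype V] (h3 : p % 3 = 2) : p ^ 2 ≤ Fintype.card V := by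
  classical
  by_contra hlt
  push Not at hlt
  -- a vector moving some point
  obtain ⟨n0, α0, hn0⟩ : ∃ (n0 : ZMod p × ZMod p) (α0 : V), T e n0 α0 ≠ α0 := by
    by_contra hcon
    push Not at hcon
    have h1 : T e (1, 0) = 1 := by
      ext α
      exact hcon (1, 0) α
    unfold T at h1
    have h2 := e.symm.map_eq_one_iff.mp h1
    have h3 := congrArg SemidirectProduct.left h2
    rw [SemidirectProduct.left_inl] at h3
    have h4 : ((1, 0) : ZMod p × ZMod p) = 0 := Multiplicative.ofAdd.injective h3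
    have h5 := congrArg Prod.fst h4
    simp at h5
  obtain ⟨a, ha0, ha⟩ := exists_fix e hlt α0
  let S : Set V := {α | T e a α = α ∧ T e n0 α ≠ α}
  have hS : ∀ α, α ∈ S ↔ (T e a α = α ∧ T e n0 α ≠ α) := fun α => Iff.rfl
  have hSinv : ∀ v α, T e v α ∈ S ↔ α ∈ S := by
    intro v α
    rw [hS, hS, T_comm e a v, T_comm e n0 v]
    simp only [ne_eq, EmbeddingLike.apply_eq_iff_eq]
  have hkey : ∀ α β, α ∈ S → β ∉ S → ∃ m, T e m α = T e n0 α ∧ T e m β = β := by
    intro α β hα hβ
    by_cases hb : T e n0 β = β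
    · exact ⟨n0, rfl, hb⟩
    · have hab : T e a β ≠ β := fun h => hβ ⟨h, hb⟩
      obtain ⟨b, hb0, hbβ⟩ := exists_fix e hlt β
      have hd : a.1 * b.2 - a.2 * b.1 ≠ 0 := by
        intro hd
        obtain ⟨t, ht⟩ := exists_mul_of_det p a b hb0 hd
        apply hab
        rw [ht]
        exact T_smul e b β hbβ t
      obtain ⟨x, y, hxy⟩ := exists_comb p a b n0 hd
      refine ⟨y • b, ?_, T_smul e b β hbβ y⟩
      rw [hxy, add_comm, T_add, T_smul e a α hα.1 x]
  let f : V → V := fun α => if α ∈ S then T e n0 α else α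
  let f' : V → V := fun α => if α ∈ S then T e (-n0) α else α
  have hf1 : ∀ α, α ∈ S → f α = T e n0 α := fun α h => if_pos h
  have hf2 : ∀ α, α ∉ S → f α = α := fun α h => if_neg h
  have hf1' : ∀ α, α ∈ S → f' α = T e (-n0) α := fun α h => if_pos h
  have hf2' : ∀ α, α ∉ S → f' α = α := fun α h => if_neg h
  have hleft : ∀ α, f' (f α) = α := by
    intro α
    by_cases h : α ∈ S
    · rw [hf1 α h, hf1' _ ((hSinv _ _).mpr h), T_neg]
    · rw [hf2 α h, hf2' α h]
  have hright : ∀ α, f (f' α) = α := by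
    intro α
    by_cases h : α ∈ S
    · rw [hf1' α h, hf1 _ ((hSinv _ _).mpr h), T_neg']
    · rw [hf2' α h, hf2 α h]
  have hadj1 : ∀ α β, α ∈ S → β ∉ S → (Γ.Adj (f α) (f β) ↔ Γ.Adj α β) := by
    intro α β hα hβ
    obtain ⟨m, hm1, hm2⟩ := hkey α β hα hβ
    rw [hf1 α hα, hf2 β hβ, ← hm1]
    conv_lhs => rw [← hm2]
    exact (T e m).map_adj_iff
  let π : Γ ≃g Γ :=
    { toFun := f
      invFun := f'
      left_inv := hleft
      right_inv := hright
      map_rel_iff' := by
        intro α β
        change Γ.Adj (f α) (f β) ↔ Γ.Adj α β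
        by_cases hα : α ∈ S
        · by_cases hβ : β ∈ S
          · rw [hf1 α hα, hf1 β hβ]
            exact (T e n0).map_adj_iff
          · exact hadj1 α β hα hβ
        · by_cases hβ : β ∈ S
          · rw [Γ.adj_comm, Γ.adj_comm α β]
            exact hadj1 β α hβ hα
          · rw [hf2 α hα, hf2 β hβ] }
  have hπ : ∀ α, π α = f α := fun α => rfl
  obtain ⟨m0, hm0⟩ := eq_T_of_comm e π (by
    intro v α
    rw [hπ, hπ]
    by_cases h : α ∈ S
    · rw [hf1 α h, hf1 _ ((hSinv _ _).mpr h), T_comm]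
    · rw [hf2 α h, hf2 _ (fun h' => h ((hSinv _ _).mp h'))])
  have hα0 : α0 ∈ S := ⟨ha, hn0⟩
  have hm0α : T e m0 α0 ≠ α0 := by
    rw [← hm0, hπ, hf1 α0 hα0]
    exact hn0
  have hnorm := norm_ne_zero p h3 a ha0
  -- the point `C α0`
  have h1 : C e α0 ∉ S := by
    intro hc
    have h4 : T e (A0 p (A0 p a)) α0 = α0 := by
      have h5 : C e (T e (A0 p (A0 p a)) α0) = C e α0 := by
        rw [C_T, A0_cube]
        exact hc.1
      exact (C e).injective h5
    obtain ⟨x, y, hxy⟩ := exists_comb p a (A0 p (A0 p a)) n0 (by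
      intro h0
      apply hnorm
      rw [← neg_eq_zero, ← h0]
      simp only [A0_apply]
      ring)
    apply hn0
    rw [hxy]
    exact T_fix_add e _ _ _ (T_smul e _ _ ha _) (T_smul e _ _ h4 _)
  have h2 : C e (C e α0) ∉ S := by
    intro hc
    have h4 : T e (A0 p a) α0 = α0 := by
      have h5 : C e (C e (T e (A0 p a) α0)) = C e (C e α0) := by
        rw [C_T, C_T, A0_cube]
        exact hc.1
      exact (C e).injective ((C e).injective h5)
    obtain ⟨x, y, hxy⟩ := exists_comb p a (A0 p a) n0 (by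
      intro h0
      apply hnorm
      rw [← h0]
      simp only [A0_apply]
      ring)
    apply hn0
    rw [hxy]
    exact T_fix_add e _ _ _ (T_smul e _ _ ha _) (T_smul e _ _ h4 _)
  have h4 : T e (A0 p (A0 p m0)) α0 = α0 := by
    have h5 : C e (T e (A0 p (A0 p m0)) α0) = C e α0 := by
      rw [C_T, A0_cube, ← hm0, hπ, hf2 _ h1]
    exact (C e).injective h5
  have h6 : T e (A0 p m0) α0 = α0 := by
    have h5 : C e (C e (T e (A0 p m0) α0)) = C e (C e α0) := by
      rw [C_T, C_T, A0_cube, ← hm0, hπ, hf2 _ h2]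
    exact (C e).injective ((C e).injective h5)
  apply hm0α
  have h7 := T_fix_neg e _ _ (T_fix_add e _ _ _ h4 h6)
  have h8 : -(A0 p (A0 p m0) + A0 p m0) = m0 := by
    obtain ⟨x, y⟩ := m0
    ext <;> simp [A0_apply]
  rwa [h8] at h7

end

end Pool.Agent.Work.MP_acd137_co
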