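import Mathlib

set_option autoImplicit false

namespace Pool.Agent.Work.MP_acd137_co

/-- The normal subgroup `(ℤ/p)²`. -/
abbrev N (p : ℕ) := Multiplicative (ZMod p × ZMod p)

/-- An additive automorphism of order three. -/
def A0 (p : ℕ) : (ZMod p × ZMod p) ≃+ (ZMod p × ZMod p) where
  toFun v := (-v.2, v.1 - v.2)
  invFun v := (v.2 - v.1, -v.1)
  left_inv v := by ext <;> simp
  right_inv v := by ext <;> simp
  map_add' v w := by ext <;> simp <;> ring

theorem A0_apply (p : ℕ) (v : ZMod p × ZMod p) : A0 p v = (-v.2, v.1 - v.2) := rfl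

theorem A0_cube (p : ℕ) (v : ZMod p × ZMod p) : A0 p (A0 p (A0 p v)) = v := by
  obtain ⟨x, y⟩ := v
  ext
  · simp [A0_apply]
  · simp [A0_apply]
    ring

/-- The corresponding automorphism of `N p`. -/
def A (p : ℕ) : MulAut (N p) := AddEquiv.toMultiplicative (A0 p)

theorem A_apply (p : ℕ) (v : ZMod p × ZMod p) :
    A p (Multiplicative.ofAdd v) = Multiplicative.ofAdd (A0 p v) := rfl

theorem A_cube (p : ℕ) : A p ^ 3 = 1 := by
  ext v
  · obtain ⟨x, y⟩ := v
    change (A0 p (A0 p (A0 p (x, y)))).1 = x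
    simp [A0]
  · obtain ⟨x, y⟩ := v
    change (A0 p (A0 p (A0 p (x, y)))).2 = y
    simp [A0]
    ring

theorem A_ne_one (p : ℕ) [hp : Fact p.Prime] : A p ≠ 1 := by
  intro h
  have h1 : A p (Multiplicative.ofAdd ((1, 0) : ZMod p × ZMod p)) = Multiplicative.ofAdd (1, 0) := by
    rw [h]; rfl
  rw [A_apply] at h1
  have h2 : A0 p (1, 0) = (1, 0) := Multiplicative.ofAdd.injective h1
  have h3 := congrArg Prod.fst h2
  simp [A0] at h3

theorem orderOf_A (p : ℕ) [Fact p.Prime] : orderOf (A p) = 3 :=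
  orderOf_eq_prime (A_cube p) (A_ne_one p)

/-- The complement. -/
abbrev Q (p : ℕ) := Subgroup.zpowers (A p)

/-- The group `(ℤ/p)² ⋊ C₃`. -/
abbrev Gp (p : ℕ) := N p ⋊[(Q p).subtype] (Q p)

theorem card_Gp (p : ℕ) [Fact p.Prime] : Nat.card (Gp p) = 3 * p ^ 2 := by
  rw [SemidirectProduct.card, Nat.card_zpowers, orderOf_A]
  have : Nat.card (N p) = p ^ 2 := by
    change Nat.card (ZMod p × ZMod p) = p ^ 2
    rw [Nat.card_prod, Nat.card_zmod]
    ring
  rw [this]
  ring

instance (p : ℕ) [Fact p.Prime] : Finite (Gp p) :=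
  Nat.finite_of_card_ne_zero (by
    rw [card_Gp]
    have := (Fact.out : p.Prime).pos
    positivity)

theorem pow_Gp (p : ℕ) [Fact p.Prime] (g : Gp p) : g ^ (3 * p) = 1 := by
  have h1 : (g ^ 3).right = 1 := by
    have : (g ^ 3).right = g.right ^ 3 := map_pow (SemidirectProduct.rightHom) g 3
    rw [this]
    have hc : Nat.card (Q p) = 3 := by rw [Nat.card_zpowers, orderOf_A]
    rw [← hc]
    exact pow_card_eq_one'
  have h2 : g ^ 3 = SemidirectProduct.inl (g ^ 3).left := by
    refine SemidirectProduct.ext ?_ ?_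
    · rw [SemidirectProduct.left_inl]
    · rw [h1, SemidirectProduct.right_inl]
  rw [pow_mul, h2, ← map_pow]
  have h3 : (g ^ 3).left ^ p = 1 := by
    change p • (Multiplicative.toAdd (g ^ 3).left) = 0
    rw [← Nat.cast_smul_eq_nsmul (ZMod p)]
    simp
  rw [h3, map_one]

end Pool.Agent.Work.MP_acd137_co
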